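import Pool.Agent.Q106.Between3

/-!
# Every rational number larger than one is the betweenness of a betweenness-uniform graph
-/

set_option autoImplicit false

namespace Pool.Agent.Results.MP_8f6c4c_co.AllRationals

open Pool.Agent.Q106.Between

/-- `α` is the betweenness of a betweenness-uniform graph: of a finite connected graph all of whose
vertices have betweenness `α`. -/
def IsBetweenness (α : ℝ) : Prop :=
  ∃ (V : Type) (_ : Fintype V) (G : SimpleGraph V), G.Connected ∧ ∀ v, betweenness G v = α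

theorem betweenness_rat {V : Type} [Fintype V] (G : SimpleGraph V) (v : V) :
    ∃ q : ℚ, betweenness G v = q := by
  classical
  refine ⟨(∑ s : V, ∑ t : V, if s ≠ t ∧ s ≠ v ∧ t ≠ v then (sigmaVia G s t v : ℚ) / sigma G s t
    else 0) / 2, ?_⟩
  unfold betweenness
  push_cast
  congr 1
  refine Finset.sum_congr rfl fun s _ => Finset.sum_congr rfl fun t _ => ?_
  by_cases h : s ≠ t ∧ s ≠ v ∧ t ≠ v
  · rw [if_pos h, if_pos h]
    push_cast
    rfl
  · rw [if_neg h, if_neg h]
    push_cast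
    rfl

theorem isBetweenness_rat (q : ℚ) (hq : 1 < q) : IsBetweenness (q : ℝ) := by
  have hn : (q.den : ℤ) < q.num := by
    have h1 : (q.num : ℚ) / q.den = q := Rat.num_div_den q
    have hd : (0 : ℚ) < q.den := by exact_mod_cast q.den_pos
    rw [← h1, lt_div_iff₀ hd, one_mul] at hq
    exact_mod_cast hq
  obtain ⟨a, ha⟩ : ∃ a : ℕ, q.num = q.den + a := ⟨(q.num - q.den).toNat, by omega⟩
  have ha1 : 1 ≤ a := by omega
  have hcop : Nat.Coprime q.den a := by
    have h := q.reduced
    have h2 : q.num.natAbs = q.den + a := by omega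
    rw [h2] at h
    have h3 := h.symm
    rwa [Nat.coprime_self_add_right] at h3
  obtain ⟨V, hV, G, hG, hB⟩ := exists_of_coprime a q.den ha1 q.den_pos hcop
  refine ⟨V, hV, G, hG, fun v => (hB v).trans ?_⟩
  have h1 : (q : ℝ) = (q.num : ℝ) / q.den := Rat.cast_def q
  rw [h1, ha]
  push_cast
  rfl

/-- The set of the numbers larger than one which are the betweenness of a betweenness-uniform graph
is the set of all rational numbers larger than one; the set of the rational numbers larger than one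
which are not attained is empty, so it is not infinite, not unbounded and not dense in `(1, ∞)`. -/
theorem result :
    {α : ℝ | 1 < α ∧ IsBetweenness α} = {α : ℝ | 1 < α ∧ ∃ q : ℚ, α = q} ∧
    {α : ℝ | 1 < α ∧ (∃ q : ℚ, α = q) ∧ ¬ IsBetweenness α} = ∅ ∧
    ¬ {α : ℝ | 1 < α ∧ (∃ q : ℚ, α = q) ∧ ¬ IsBetweenness α}.Infinite ∧
    BddAbove {α : ℝ | 1 < α ∧ (∃ q : ℚ, α = q) ∧ ¬ IsBetweenness α} ∧
    ¬ Set.Ioi 1 ⊆ closure {α : ℝ | 1 < α ∧ (∃ q : ℚ, α = q) ∧ ¬ IsBetweenness α} := by
  have h0 : {α : ℝ | 1 < α ∧ (∃ q : ℚ, α = q) ∧ ¬ IsBetweenness α} = ∅ := by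
    rw [Set.eq_empty_iff_forall_notMem]
    rintro α ⟨h1, ⟨q, rfl⟩, h2⟩
    exact h2 (isBetweenness_rat q (by exact_mod_cast h1))
  refine ⟨?_, h0, ?_, ?_, ?_⟩
  · ext α
    constructor
    · rintro ⟨h1, V, hV, G, hG, hB⟩
      refine ⟨h1, ?_⟩
      obtain ⟨v⟩ := hG.nonempty
      obtain ⟨q, hq⟩ := betweenness_rat G v
      exact ⟨q, (hB v).symm.trans hq⟩
    · rintro ⟨h1, q, rfl⟩
      exact ⟨h1, isBetweenness_rat q (by exact_mod_cast h1)⟩
  · rw [h0]
    simp
  · rw [h0]
    exact bddAbove_empty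
  · rw [h0, closure_empty]
    intro h
    exact h (show (2 : ℝ) ∈ Set.Ioi 1 by norm_num)

end Pool.Agent.Results.MP_8f6c4c_co.AllRationals
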